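import Pool.Agent.Helper8.LV.EngB
import Pool.Agent.Helper6.QS.MainPN

/-!
# EL-FINPGT: `FinP N q` for `q > 2 N`

The third case of `Helper8.LV.eng_B` for one form with independent coefficients: no lines.
-/

set_option autoImplicit false

open MvPolynomial

namespace Pool.Agent.Helper91.EL

open Pool.Agent.Helper8.LG hiding coeffField

universe u v

/-- degree `> 2 N`: finitely many integral points -/
theorem finP_gt {N q : ℕ} (hN : 1 ≤ N) (hq : 2 * N + 1 ≤ q) :
    Pool.Agent.Helper6.QS.FinP.{u, v} N q := by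
  intro k₀ M _ _ _ _ hfg F hF hcoef A hA
  classical
  have h1 := fun i₀ : Fin (N + 1) => Pool.Agent.Helper8.LV.eng_B (s := 1) (r := 1) hfg
    (fun _ => q) (fun _ => q) (fun _ _ => 0) (fun _ => by omega) (fun _ _ => by omega)
    (fun _ => F) (fun _ => 0) (fun _ => isHomogeneous_zero _ _ _) (fun _ _ => 1)
    (fun _ _ => isHomogeneous_one _ _) (fun _ _ => F) (fun _ _ => by simpa using hF)
    (fun _ => by
      rw [map_zero, zero_add, Fin.sum_univ_one, map_one, one_mul]) 0
    (by
      have e1 : ({z | ∃ (_ : Fin 1) (_ : Fin 1) (J : Fin (N + 1) →₀ ℕ), z = coeff J F} :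
          Set M) = {z | ∃ J, z = coeff J F} := by
        ext z
        constructor
        · rintro ⟨-, -, J, h⟩
          exact ⟨J, h⟩
        · rintro ⟨J, h⟩
          exact ⟨0, 0, J, h⟩
      rw [e1, Fin.sum_univ_one, Fin.sum_univ_one, Nat.cast_zero, add_zero, Nat.sub_zero]
      exact hcoef) ∅
    (by
      rw [Fin.sum_univ_one, Finset.card_empty]
      omega)
    (by
      rw [Fin.sum_univ_one]
      omega) i₀ A hA
  refine ⟨∅, Set.finite_empty, fun W h => absurd h (Set.notMem_empty _), fun i₀ =>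
    (h1 i₀).subset ?_⟩
  rintro y ⟨h2, -, h3, h4⟩
  exact ⟨h2, fun _ => ⟨0, by rw [map_one]; exact one_ne_zero⟩,
    fun i hi => absurd hi (Finset.notMem_empty i), fun _ _ => ⟨h3, h4⟩⟩

end Pool.Agent.Helper91.EL
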