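import Pool.Agent.Helper8.LV.MainV
import Pool.Agent.Helper10.LN.MainN

/-!
# EL-MAINGT: complements of hypersurfaces of degree `> 2 N`, bases of finite type over `ℤ`

The third case of `Helper8.LV.main_v` for one hypersurface, in the shape of `Helper6.QS.main_p`.
-/

set_option autoImplicit false

open AlgebraicGeometry CategoryTheory CategoryTheory.Limits MvPolynomial

namespace Pool.Agent.Helper91.EL

open Pool.Agent.Helper10.LN

open scoped BigOperators LinearAlgebra.Projectivization
open Pool.Agent.Helper8.LG hiding coeffField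

universe u v

/-- Complements of hypersurfaces of degree `> 2 N + c`: finitely many integral points. -/
theorem main_gt (R : CommRingCat.{u}) (B : Scheme.{u}) [IsIntegral B] (s : B ⟶ Spec R)
    [LocallyOfFiniteType s] [CharZero B.functionField]
    (U : Scheme.{u}) (π : U ⟶ B) [IsSeparated π] [LocallyOfFiniteType π] [QuasiCompact π]
    {N n : ℕ} (d q : ℕ) (b : Fin n → ℕ) (hb : ∀ j, b j + q ≤ d)
    (F : MvPolynomial (Fin (N + 1)) B.functionField) (hF : F.IsHomogeneous d)
    (f : genFib π ⟶ PN N B.functionField) (hf : f ≫ PN.toSpec N _ = pullback.snd _ _)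
    [LocallyQuasiFinite f] (Cl : Prop) (hCl : ¬Cl)
    (hU : ¬Cl → ∀ z : genFib π, NonVanishing (f z) F)
    (k₀ : Subfield B.functionField)
    (hk₀ : ∀ r : R, (Spec.preimage (B.fromSpecStalk (genericPoint B) ≫ s)).hom r ∈ k₀)
    (M : Type v) [Field M] [Algebra B.functionField M]
    (hM : (⊤ : IntermediateField B.functionField M).FG) (g : GL (Fin (N + 1)) M)
    (A : MvPolynomial (Fin (N + 1)) k₀) (hA : A.IsHomogeneous d)
    (P : Fin n → MvPolynomial (Fin (N + 1)) k₀) (hP : ∀ j, (P j).IsHomogeneous (b j))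
    (H : Fin n → MvPolynomial (Fin (N + 1)) M) (hH : ∀ j, (H j).IsHomogeneous (d - b j))
    (hFA : subst (g : Matrix _ _ M) F =
      map (algebraMap k₀ M) A + ∑ j, map (algebraMap k₀ M) (P j) * H j) (w c : ℕ)
    (hcoef : ((∑ j, (N + (d - b j)).choose N : ℕ) : Cardinal) ≤
      Algebra.trdeg k₀ (IntermediateField.adjoin k₀ {z | ∃ j J, z = coeff J (H j)}) + c)
    (hR : Algebra.FiniteType ℤ R) (hN : 1 ≤ N) (hq : 2 * N + 1 + c ≤ q) :
    {σ : B ⟶ U | ∃ hσ : σ ≫ π = 𝟙 B, ∀ (t : Spec B.functionField)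
        (x : Fin (N + 1) → B.functionField), IsCoord (f (genPt π σ hσ t)) x →
          CondN Cl F g P w x}.Finite := by
  classical
  have hcf : Pool.Agent.Helper8.LV.coeffField k₀ (fun _ : Fin 1 => H) =
      IntermediateField.adjoin k₀ {z | ∃ j J, z = coeff J (H j)} := by
    have e1 : ({z | ∃ (_ : Fin 1) (j : Fin n) (J : Fin (N + 1) →₀ ℕ), z = coeff J (H j)} :
        Set M) = {z | ∃ j J, z = coeff J (H j)} := by
      ext z
      constructor
      · rintro ⟨-, j, J, h⟩
        exact ⟨j, J, h⟩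
      · rintro ⟨j, J, h⟩
        exact ⟨0, j, J, h⟩
    unfold Pool.Agent.Helper8.LV.coeffField
    rw [e1]
  have h1 := Pool.Agent.Helper8.LV.main_v R B s U π (r := 1) (fun _ => d) (fun _ => q)
    (fun _ => 1) (fun _ => b) (fun _ => by omega) (fun _ => hb) (fun _ => F) (fun _ => hF) f hf
    ∅ ∅ (Finset.disjoint_empty_left _) (fun i hi => absurd hi (Finset.notMem_empty i))
    (fun _ _ _ => hU hCl) k₀ hk₀ M hM g (fun _ => A) (fun _ => hA) (fun _ => P)
    (fun _ => hP) (fun _ => H) (fun _ => hH) (fun _ => hFA) w c (by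
      rw [Fin.sum_univ_one, hcf]
      exact hcoef)
    (Or.inr (Or.inr ⟨hR, rfl, by
      simp only [Fin.sum_univ_one, Finset.card_empty]
      omega, by
      simp only [Fin.sum_univ_one]
      omega⟩))
  refine h1.subset ?_
  rintro σ ⟨hσ, h2⟩
  refine ⟨hσ, fun t x hx => ?_⟩
  obtain ⟨h3, h4, -⟩ := h2 t x hx
  exact ⟨fun _ => h3, h4, fun i hi => absurd hi (Finset.notMem_empty i),
    fun i hi => absurd hi (Finset.notMem_empty i)⟩

end Pool.Agent.Helper91.EL
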